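import Mathlib
import Pool.Agent.TH277.CB.C
set_option autoImplicit false

/-! The restriction conjecture for the paraboloid in `ℝ^d`, `d = n + 1`, in the full range
`q > 2d/(d-1)`, for products of an arbitrary bounded multilinear form of bounded functions of one
coordinate and of rough convex phases in disjoint pairs of coordinates, on a half space in time:
the `n` coordinates are split (by `e`) into `m₁` single coordinates and `m₂` pairs, and
`f(ξ) = M(a_1(ξ_(e 1)), …, a_(m₁)(ξ_(e m₁))) ∏_j F_j(ξ_(pair j))`, each `F_j` being a superposition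
of functions `c e^{iφ} 1_K` with `K` convex and `σ φ + T |x|²` convex on `K`. -/

namespace Pool.Agent.Results.MP_b7167f_an.BlockConvexPhases

open MeasureTheory Set Complex
open scoped ENNReal NNReal
open Pool.Agent.TH277

/-- The extension operator of the truncated paraboloid in `ℝ^(n+1)`. -/
noncomputable def ext {n : ℕ} (f : (Fin n → ℝ) → ℂ) (y : (Fin n → ℝ) × ℝ) : ℂ :=
  ∫ ξ in Icc (-1 : Fin n → ℝ) 1,
    f ξ * cexp (2 * Real.pi * I * ((∑ j, ξ j * y.1 j + (∑ j, ξ j ^ 2) * y.2 : ℝ) : ℂ))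

/-- `f = c e^{iφ} 1_K` with `K ⊆ [-1,1]²` convex, `|c| ≤ 1` and `σ φ + T |x|²` convex on `K`. -/
def IsAtom (σ T : ℝ) (f : ℝ × ℝ → ℂ) : Prop :=
  ∃ (K : Set (ℝ × ℝ)) (φ : ℝ × ℝ → ℝ) (c : ℂ), K ⊆ Icc (-1, -1) (1, 1) ∧ ‖c‖ ≤ 1 ∧
    ConvexOn ℝ K (fun x => σ * φ x + T * (x.1 ^ 2 + x.2 ^ 2)) ∧
    f = K.indicator fun x => c * cexp (I * φ x)

theorem result (m₁ m₂ n : ℕ) (hm₂ : 1 ≤ m₂) (hn : n = m₁ + 2 * m₂) (q : ℝ)
    (hq : 2 * ((n : ℝ) + 1) / n < q) :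
    ∃ C : ℝ≥0, ∀ (e : Fin m₁ ⊕ (Fin m₂ ⊕ Fin m₂) ≃ Fin n) (H : Type) [NormedAddCommGroup H]
      [InnerProductSpace ℂ H] [CompleteSpace H]
      (M : ContinuousMultilinearMap ℂ (fun _ : Fin m₁ => H) ℂ) (a : Fin m₁ → ℝ → H) (σ T : ℝ)
      (S : Fin m₂ → Type) [∀ j, MeasurableSpace (S j)] (ν : ∀ j, Measure (S j))
      [∀ j, IsFiniteMeasure (ν j)] (g : ∀ j, S j → ℝ × ℝ → ℂ),
      (∀ x, ‖M x‖ ≤ ∏ m, ‖x m‖) → (∀ m, StronglyMeasurable (a m)) →
      (∀ m, ∀ u ∈ Icc (-1 : ℝ) 1, ‖a m u‖ ≤ 1) → (σ = 1 ∨ σ = -1) →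
      (∀ j, Measurable (Function.uncurry (g j))) → (∀ j s, IsAtom σ T (g j s)) →
      ∫⁻ y in {y : (Fin n → ℝ) × ℝ | T < 2 * Real.pi * σ * y.2},
        ‖ext (fun ξ => M (fun m => a m (ξ (e (Sum.inl m)))) *
          ∏ j, ∫ s, g j s (ξ (e (Sum.inr (Sum.inl j))), ξ (e (Sum.inr (Sum.inr j)))) ∂ν j) y‖ₑ ^ q
        ≤ C * ∏ j, ν j univ ^ q := by
  obtain ⟨C, hC⟩ := CB.main m₁ m₂ n hm₂ hn q hq
  refine ⟨C, ?_⟩
  intro e H _ _ _ M a σ T S _ ν _ g hM ham hab hσ hg hat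
  set a' : Fin m₁ → ℝ → H := fun m => (Icc (-1 : ℝ) 1).indicator (a m) with ha'
  have hM1 : ‖M‖ ≤ 1 := by
    apply ContinuousMultilinearMap.opNorm_le_bound zero_le_one
    intro x
    rw [one_mul]
    exact hM x
  have hA : ∀ m, HT.Adm (a' m) := by
    intro m
    constructor
    · exact (ham m).indicator measurableSet_Icc
    · intro u
      by_cases h : u ∈ Icc (-1 : ℝ) 1
      · simp only [ha', indicator_of_mem h]
        exact hab m u h
      · simp only [ha', indicator_of_notMem h, norm_zero]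
        exact zero_le_one
  have h1 := hC e H M a' hM1 hA σ T hσ S ν g hg hat
  refine le_trans (le_of_eq ?_) h1
  apply lintegral_congr
  intro y
  congr 2
  unfold ext HT.EE
  apply setIntegral_congr_fun measurableSet_Icc
  intro ξ hξ
  have hc : ∀ m, ξ m ∈ Icc (-1 : ℝ) 1 := fun m => ⟨hξ.1 m, hξ.2 m⟩
  have e1 : (fun m => a' m ((CB.Phi e ξ).1 m)) = fun m => a m (ξ (e (Sum.inl m))) := by
    ext m
    show a' m (ξ (e (Sum.inl m))) = _
    simp only [ha', indicator_of_mem (hc _)]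
  show _ = _ * (M (fun m => a' m ((CB.Phi e ξ).1 m)) * _)
  rw [e1]
  exact mul_comm _ _

end Pool.Agent.Results.MP_b7167f_an.BlockConvexPhases
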