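import Mathlib
import Pool.Agent.TH277.HT.K
set_option autoImplicit false

/-! The restriction conjecture for the paraboloid in `ℝ^d`, `d = n + 1 ≥ 3`, in the full range
`q > 2d/(d-1)`, for the functions
`f(ξ) = M(a_1(ξ_1), …, a_n(ξ_n)) ∏_p g_p(ξ_(i_p), ξ_(j_p))`, where `M` is a bounded multilinear form
on a Hilbert space, the `a_m` are bounded measurable functions of one coordinate with values in the
Hilbert space, and `g_p(u, v)` is bounded, arbitrary (measurable) in `u` and of bounded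
`2`-variation in `v`. -/

namespace Pool.Agent.Results.MP_b7167f_an.HilbertTensors

open MeasureTheory Set Complex
open scoped ENNReal NNReal
open Pool.Agent.TH277

/-- The extension operator of the truncated paraboloid in `ℝ^(n+1)`. -/
noncomputable def ext {n : ℕ} (f : (Fin n → ℝ) → ℂ) (y : (Fin n → ℝ) × ℝ) : ℂ :=
  ∫ ξ in Icc (-1 : Fin n → ℝ) 1,
    f ξ * cexp (2 * Real.pi * I * ((∑ j, ξ j * y.1 j + (∑ j, ξ j ^ 2) * y.2 : ℝ) : ℂ))

/-- For non overlapping intervals `[a_k, b_k]` in `[-1,1]`, `k < N`, one has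
`∑ |h(b_k) - h(a_k)|² ≤ 1`: the `2`-variation of `h` on `[-1,1]` is at most one. -/
def TwoVariation (h : ℝ → ℂ) : Prop :=
  ∀ (N : ℕ) (a b : ℕ → ℝ), (∀ k < N, -1 ≤ a k ∧ a k ≤ b k ∧ b k ≤ 1) →
    (∀ k, k + 1 < N → b k ≤ a (k + 1)) → ∑ k ∈ Finset.range N, ‖h (b k) - h (a k)‖ ^ 2 ≤ 1

theorem result (n : ℕ) (hn : 2 ≤ n) (q : ℝ) (hq : 2 * ((n : ℝ) + 1) / n < q) (r : ℕ) :
    ∃ C : ℝ≥0, ∀ (H : Type) [NormedAddCommGroup H] [InnerProductSpace ℂ H] [CompleteSpace H]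
      (M : ContinuousMultilinearMap ℂ (fun _ : Fin n => H) ℂ) (a : Fin n → ℝ → H)
      (i j : Fin r → Fin n) (g : Fin r → ℝ × ℝ → ℂ),
      (∀ x, ‖M x‖ ≤ ∏ m, ‖x m‖) → (∀ m, StronglyMeasurable (a m)) →
      (∀ m, ∀ u ∈ Icc (-1 : ℝ) 1, ‖a m u‖ ≤ 1) →
      (∀ p, i p ≠ j p) → (∀ p, Measurable (g p)) →
      (∀ p, ∀ u ∈ Icc (-1 : ℝ) 1, ∀ v ∈ Icc (-1 : ℝ) 1, ‖g p (u, v)‖ ≤ 1) →
      (∀ p, ∀ u ∈ Icc (-1 : ℝ) 1, TwoVariation fun v => g p (u, v)) →
      ∫⁻ y : (Fin n → ℝ) × ℝ,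
        ‖ext (fun ξ => M (fun m => a m (ξ m)) * ∏ p, g p (ξ (i p), ξ (j p))) y‖ₑ ^ q ≤ C := by
  obtain ⟨C, hC⟩ := HT.main n hn q hq r
  refine ⟨C, ?_⟩
  intro H _ _ _ M a i j g hM ham hab hij hgm hgb hgv
  -- truncations
  set a' : Fin n → ℝ → H := fun m => (Icc (-1 : ℝ) 1).indicator (a m) with ha'
  set g' : Fin r → ℝ × ℝ → ℂ := fun p =>
    (Icc (-1 : ℝ) 1 ×ˢ Icc (-1 : ℝ) 1).indicator (g p) with hg'
  have hs : HT.Sch n fun ξ => M (fun m => a' m (ξ m)) := by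
    refine ⟨H, inferInstance, inferInstance, inferInstance, M, a', ?_, ?_, fun ξ => rfl⟩
    · apply ContinuousMultilinearMap.opNorm_le_bound zero_le_one
      intro x
      rw [one_mul]
      exact hM x
    · intro m
      constructor
      · exact (ham m).indicator measurableSet_Icc
      · intro u
        by_cases h : u ∈ Icc (-1 : ℝ) 1
        · simp only [ha', indicator_of_mem h]
          exact hab m u h
        · simp only [ha', indicator_of_notMem h, norm_zero]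
          exact zero_le_one
  have h1 := hC i j g' hij (fun p => (hgm p).indicator (measurableSet_Icc.prod measurableSet_Icc))
    (by
      intro p x
      by_cases h : x ∈ Icc (-1 : ℝ) 1 ×ˢ Icc (-1 : ℝ) 1
      · simp only [hg', indicator_of_mem h]
        exact hgb p x.1 h.1 x.2 h.2
      · simp only [hg', indicator_of_notMem h, norm_zero]
        exact zero_le_one)
    (by
      intro p u N b c hbc hcb
      by_cases hu : u ∈ Icc (-1 : ℝ) 1
      · refine le_trans (le_of_eq ?_) (hgv p u hu N b c hbc hcb)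
        apply Finset.sum_congr rfl
        intro k hk
        have hk2 := hbc k (Finset.mem_range.1 hk)
        have m1 : (u, c k) ∈ Icc (-1 : ℝ) 1 ×ˢ Icc (-1 : ℝ) 1 :=
          ⟨hu, hk2.1.trans hk2.2.1, hk2.2.2⟩
        have m2 : (u, b k) ∈ Icc (-1 : ℝ) 1 ×ˢ Icc (-1 : ℝ) 1 :=
          ⟨hu, hk2.1, hk2.2.1.trans hk2.2.2⟩
        simp only [hg', indicator_of_mem m1, indicator_of_mem m2]
      · have m1 : ∀ v, g' p (u, v) = 0 := fun v => indicator_of_notMem (fun h => hu h.1) _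
        simp only [m1, sub_self, norm_zero]
        simp) _ hs
  refine le_trans (le_of_eq ?_) h1
  apply lintegral_congr
  intro y
  congr 2
  unfold ext HT.EE
  apply setIntegral_congr_fun measurableSet_Icc
  intro ξ hξ
  have hc : ∀ m, ξ m ∈ Icc (-1 : ℝ) 1 := fun m => ⟨hξ.1 m, hξ.2 m⟩
  have e1 : (fun m => a' m (ξ m)) = fun m => a m (ξ m) := by
    ext m
    simp only [ha', indicator_of_mem (hc m)]
  have e2 : ∀ p, g' p (ξ (i p), ξ (j p)) = g p (ξ (i p), ξ (j p)) := fun p =>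
    indicator_of_mem (show (ξ (i p), ξ (j p)) ∈ Icc (-1 : ℝ) 1 ×ˢ Icc (-1 : ℝ) 1 from
      ⟨hc _, hc _⟩) _
  simp only [e2]
  rw [e1, mul_comm]
  rfl

end Pool.Agent.Results.MP_b7167f_an.HilbertTensors
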