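import Mathlib
import Pool.Agent.TH297.QC.Final
set_option autoImplicit false

/-!
# The restriction conjecture for the paraboloid: functions with convex superlevel sets

Let `d = m + 1 ≥ 2` and let `E` be the extension operator of the full paraboloid
`{(ξ, |ξ|²) : ξ ∈ ℝ^m}` in `ℝ^d`; on functions supported in `[-1,1]^m` it is the extension operator
of the truncated paraboloid.

1. (endpoint) For `q_c = 2 + 2/m = 2d/(d-1)` and every `N` there is `C` such that
   `|{|E 1_A| > λ}| ≤ C λ^{-q_c} |A|` for every `λ > 0` and every union `A` of at most `N` convex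
   sets: the constant does not depend on the shape, the size or the position of the sets.
2. For every `q > q_c`, with `1/p = 1 - (d+1)/((d-1) q)` (the scaling line) and every `N` there is `C`
   such that `‖E f‖_q ≤ C ‖f‖_p` for every integrable `f` such that the superlevel sets of the
   positive and negative parts of its real and imaginary part are unions of at most `N` convex sets.
-/

namespace Pool.Agent.Results.MP_b7167f_an.QuasiConcave

open MeasureTheory Set Complex
open scoped ENNReal NNReal RealInnerProductSpace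

/-- The extension operator of the paraboloid in `ℝ^(m+1)`:
`Ef(x,t) = ∫ exp(2πi(ξ·x + t|ξ|²)) f(ξ) dξ`. -/
noncomputable def ext {m : ℕ} (f : EuclideanSpace ℝ (Fin m) → ℂ)
    (z : EuclideanSpace ℝ (Fin m) × ℝ) : ℂ :=
  ∫ ξ : EuclideanSpace ℝ (Fin m),
    cexp ((2 * Real.pi * (⟪ξ, z.1⟫ + z.2 * ‖ξ‖ ^ 2) : ℝ) * I) * f ξ

/-- `A` is a union of `N` convex sets (which may be empty, may coincide and may overlap). -/
def UnionOfConvex {m : ℕ} (N : ℕ) (A : Set (EuclideanSpace ℝ (Fin m))) : Prop :=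
  ∃ K : Fin N → Set (EuclideanSpace ℝ (Fin m)), (∀ i, Convex ℝ (K i)) ∧ A = ⋃ i, K i

theorem result (m : ℕ) (hm : 1 ≤ m) (N : ℕ) :
    (∃ C : ℝ≥0, ∀ A : Set (EuclideanSpace ℝ (Fin m)), UnionOfConvex N A → volume A ≠ ∞ →
      ∀ lam : ℝ≥0, 0 < lam →
        volume {z : EuclideanSpace ℝ (Fin m) × ℝ | lam < ‖ext (A.indicator fun _ => 1) z‖₊} ≤
          C * (lam : ℝ≥0∞) ^ (-(2 + 2 / (m : ℝ))) * volume A) ∧
    (∀ q : ℝ, 2 + 2 / (m : ℝ) < q → ∃ C : ℝ≥0, ∀ f : EuclideanSpace ℝ (Fin m) → ℂ,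
      Integrable f →
      (∀ s : ℝ, 0 < s → UnionOfConvex N {ξ | s < (f ξ).re} ∧ UnionOfConvex N {ξ | (f ξ).re < -s} ∧
        UnionOfConvex N {ξ | s < (f ξ).im} ∧ UnionOfConvex N {ξ | (f ξ).im < -s}) →
      eLpNorm (ext f) (ENNReal.ofReal q) volume ≤
        C * eLpNorm f (ENNReal.ofReal (q / (q - (1 + 2 / (m : ℝ))))) volume) := by
  constructor
  · refine ⟨(TH297.QC.CU m N).toNNReal, ?_⟩
    intro A hA hfin lam hlam
    have hl : (0 : ℝ) < lam := by exact_mod_cast hlam
    have h := TH297.QC.weak_union hm hA hfin hl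
    have e1 : {z : EuclideanSpace ℝ (Fin m) × ℝ | lam < ‖ext (A.indicator fun _ => 1) z‖₊}
        = {p : EuclideanSpace ℝ (Fin m) × ℝ | (lam : ℝ) < ‖TH297.QC.ext (TH297.QC.ind A) p.1 p.2‖} := by
      ext z
      simp only [mem_ofPred_eq]
      rw [← NNReal.coe_lt_coe, coe_nnnorm]
      rfl
    rw [e1]
    refine h.trans (le_of_eq ?_)
    congr 1
    rw [show 2 ^ N * (TH297.QC.CW m * (2 ^ N) ^ (2 + 2 / (m : ℝ))) = TH297.QC.CU m N from rfl,
      ENNReal.ofReal_mul (TH297.QC.CU_nonneg hm N), ← ENNReal.ofReal_rpow_of_pos hl,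
      ENNReal.ofReal_coe_nnreal]
    rfl
  · intro q hq
    obtain ⟨C, hC, H⟩ := TH297.QC.main_complex hm hq N
    refine ⟨C.toNNReal, ?_⟩
    intro f hf hU
    rw [ENNReal.coe_toNNReal hC]
    exact H f hf hU

end Pool.Agent.Results.MP_b7167f_an.QuasiConcave
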