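import Mathlib
import Pool.Agent.TH407.PR.R6
import Pool.Agent.TH407.AR.D4
import Pool.Agent.TH209.VR.P3
import Pool.Agent.TH817.VR.HalfPlane
import Pool.Agent.TH817.VR.Poisson
import Pool.Agent.TH71.VR.C1
import Pool.Agent.TH71.VR.C2
import Pool.Agent.TH159.VR.AllOf
import Pool.Agent.TH159.VR.FaBounds
import Pool.Agent.TH777.VR.FF
import Pool.Agent.TH370.VR.Low
import Pool.Agent.TH634.VR.K
set_option autoImplicit false

/-!
# The restriction conjecture for products of planar functions of bounded variation along rays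

Let `d = n + 1 ≥ 3` and `q > 2d/(d-1)`, the full range of the conjecture. In suitable orthonormal
coordinates `η` of `ℝ^n` let `f(ξ) = ∏_j F_j(η_(j,0), η_(j,1)) ∏_i b_i(η_i)`, where the pairs
`(j,0), (j,1)` and the `i` form a partition of the `n` indices, the `b_i` are arbitrary bounded
measurable functions, and each planar function `F_j` is bounded and of bounded variation along the
rays from a point `p_j`, without any regularity in the angular direction. Then
`‖E f‖_q ≤ C`, with a uniform constant, and the same holds for averages of such functions, in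
which the coordinates, the partitions and the points `p_j` are allowed to vary.
-/

namespace Pool.Agent.Results.MP_b7167f_an.RayVariationTensors

open MeasureTheory Set Complex Matrix
open scoped ENNReal NNReal
open Pool.Agent.TH407

/-- The extension operator of the truncated paraboloid in `ℝ^(n+1)`:
`Ef(x,t) = ∫_{[-1,1]^n} f(ξ) exp(2πi(ξ·x + |ξ|² t)) dξ`. -/
noncomputable def ext {n : ℕ} (f : (Fin n → ℝ) → ℂ) (y : (Fin n → ℝ) × ℝ) : ℂ :=
  ∫ ξ in Icc (-1 : Fin n → ℝ) 1,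
    f ξ * cexp (2 * Real.pi * I * ((∑ j, ξ j * y.1 j + (∑ j, ξ j ^ 2) * y.2 : ℝ) : ℂ))

/-- The planar function `F` vanishes off the square `[-1,1]²`, `|F| ≤ 1`, and its total variation
along every (open) ray from the point `p` is at most `K`. Nothing is assumed on the dependence on
the direction of the ray, beyond measurability. -/
structure RayVar (K : ℝ≥0) (p : ℝ × ℝ) (F : ℝ × ℝ → ℂ) : Prop where
  meas : Measurable F
  supp : ∀ x, x ∉ Icc (-1 : ℝ) 1 ×ˢ Icc (-1 : ℝ) 1 → F x = 0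
  bd : ∀ x, ‖F x‖ ≤ 1
  var : ∀ x, x ≠ p → eVariationOn (fun s : ℝ => F (p + s • (x - p))) (Ioi 0) ≤ K

/-- The function of one variable `b` is measurable, vanishes off `[-1,1]`, and `|b| ≤ 1`. -/
structure Rough (b : ℝ → ℂ) : Prop where
  meas : Measurable b
  supp : ∀ x, x ∉ Icc (-1 : ℝ) 1 → b x = 0
  bd : ∀ x, ‖b x‖ ≤ 1

/-- In suitable orthonormal coordinates `O ξ`, `f` is a product of planar functions of bounded
variation along rays and of rough functions of one coordinate: the `n` coordinates are partitioned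
into `k` pairs `e(j,0), e(j,1)` and `l` single ones `e(i)`. -/
def IsProduct {n : ℕ} (K : ℝ≥0) (f : (Fin n → ℝ) → ℂ) : Prop :=
  ∃ (O : Matrix (Fin n) (Fin n) ℝ) (k l : ℕ) (e : (Fin k × Fin 2) ⊕ Fin l ≃ Fin n)
    (p : Fin k → ℝ × ℝ) (F : Fin k → ℝ × ℝ → ℂ) (b : Fin l → ℝ → ℂ),
    O * Oᵀ = 1 ∧ (∀ j, (p j).1 ^ 2 + (p j).2 ^ 2 ≤ (K : ℝ) ^ 2) ∧
    (∀ j, RayVar K (p j) (F j)) ∧ (∀ i, Rough (b i)) ∧
    ∀ ξ, f ξ = (∏ j, F j ((O *ᵥ ξ) (e (Sum.inl (j, 0))), (O *ᵥ ξ) (e (Sum.inl (j, 1))))) *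
      ∏ i, b i ((O *ᵥ ξ) (e (Sum.inr i)))

/-- the planar estimates -/
theorem low : AR.LowL4 :=
  Pool.Agent.TH370.VR.low_of
    (Pool.Agent.TH159.VR.F.all_of
      (AR.even_of Pool.Agent.TH209.VR.planar
        (Pool.Agent.TH71.VR.base_of Pool.Agent.TH817.VR.poisson Pool.Agent.TH71.VR.exact))
      Pool.Agent.TH817.VR.half_plane)
    Pool.Agent.TH777.VR.fourier_facts

theorem ext_eq {n : ℕ} {f : (Fin n → ℝ) → ℂ} (h : ∀ ξ, ξ ∉ Icc (-1 : Fin n → ℝ) 1 → f ξ = 0)
    (y : (Fin n → ℝ) × ℝ) : ext f y = PR.EN f y := by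
  unfold ext PR.EN
  apply setIntegral_eq_integral_of_forall_compl_eq_zero
  intro ξ hξ
  rw [h ξ hξ, zero_mul]

theorem single {n : ℕ} (hn : 2 ≤ n) (q : ℝ) (hq : 2 * ((n : ℝ) + 1) / n < q) (K : ℝ≥0) :
    ∃ C : ℝ≥0∞, C ≠ ∞ ∧ ∀ f : (Fin n → ℝ) → ℂ, IsProduct K f →
      (∀ ξ, ‖f ξ‖ ≤ 1) ∧ ∫⁻ y : (Fin n → ℝ) × ℝ, ‖PR.EN f y‖ₑ ^ q ≤ C := by
  obtain ⟨C, hC, hb⟩ := PR.prod_bound Pool.Agent.TH777.VR.fourier_facts low
    Pool.Agent.TH159.VR.fa_bounds Pool.Agent.TH634.VR.var_mod n hn q hq K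
  refine ⟨C, hC, ?_⟩
  rintro f ⟨O, k, l, e, p, F, b, hO, hp, hF, hbr, hf⟩
  have hf2 : f = fun ξ => PR.tens e F b (O *ᵥ ξ) := by
    ext ξ
    exact hf ξ
  constructor
  · intro ξ
    rw [hf ξ, norm_mul, norm_prod, norm_prod]
    apply mul_le_one₀
    · exact Finset.prod_le_one (fun _ _ => norm_nonneg _) (fun j _ => (hF j).bd _)
    · exact Finset.prod_nonneg (fun _ _ => norm_nonneg _)
    · exact Finset.prod_le_one (fun _ _ => norm_nonneg _) (fun i _ => (hbr i).bd _)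
  · rw [hf2, PR.lint_rot O hO (PR.tens_meas e (fun j => (hF j).meas) (fun i => (hbr i).meas)) q]
    exact hb k l e p F b hp (fun j => ⟨(hF j).meas, fun x hx => (hF j).supp x (fun h => hx
      ⟨⟨h.1.1, h.2.1⟩, ⟨h.1.2, h.2.2⟩⟩), (hF j).var⟩) (fun i => (hbr i).meas)
      (fun i => (hbr i).supp) (fun i => (hbr i).bd)

/-- **The restriction conjecture for averages of products of planar functions of bounded variation
along rays and of rough functions of one coordinate.** Let `n = d - 1 ≥ 2`, `q > 2d/(d-1)` and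
`K ≥ 0`. There is `C` such that for every finite measure `ν` on a space `S` and all functions
`φ_s` on the cube `[-1,1]^n` of the form `IsProduct K`, measurable in `(s, ξ)`, the function
`f(ξ) = ∫ φ_s(ξ) dν(s)` satisfies `∫ |E f|^q ≤ C ν(S)^q`. -/
theorem result (n : ℕ) (hn : 2 ≤ n) (q : ℝ) (hq : 2 * ((n : ℝ) + 1) / n < q) (K : ℝ≥0) :
    ∃ C : ℝ≥0, ∀ (S : Type) [MeasurableSpace S] (ν : Measure S) [IsFiniteMeasure ν]
      (φ : S → (Fin n → ℝ) → ℂ), Measurable (Function.uncurry φ) →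
      (∀ s, IsProduct K (φ s)) → (∀ s ξ, ξ ∉ Icc (-1 : Fin n → ℝ) 1 → φ s ξ = 0) →
      ∫⁻ y : (Fin n → ℝ) × ℝ, ‖ext (fun ξ => ∫ s, φ s ξ ∂ν) y‖ₑ ^ q ≤ C * ν univ ^ q := by
  obtain ⟨C, hC, hb⟩ := single hn q hq K
  refine ⟨C.toNNReal, ?_⟩
  intro S _ ν _ φ hφ hP h0
  rw [ENNReal.coe_toNNReal hC]
  have hq1 : 1 < q := by
    have hn0 : (0 : ℝ) < n := by
      have : (2 : ℝ) ≤ n := by exact_mod_cast hn
      linarith
    have : 2 < 2 * ((n : ℝ) + 1) / n := by
      rw [lt_div_iff₀ hn0]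
      linarith
    linarith
  have he : ∀ y, ext (fun ξ => ∫ s, φ s ξ ∂ν) y = PR.EN (fun ξ => ∫ s, φ s ξ ∂ν) y := by
    intro y
    apply ext_eq
    intro ξ hξ
    simp only [h0 _ ξ hξ, integral_zero]
  simp only [he]
  exact PR.average q hq1 C ν φ hφ (fun s => (hb (φ s) (hP s)).1) h0
    (fun s => (hb (φ s) (hP s)).2)

end Pool.Agent.Results.MP_b7167f_an.RayVariationTensors
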